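import Pool.Agent.Helper62.DSH.StB

/-!
# Project DS (MP_087a81_gt), module RKJ: the rank argument for forms
-/

set_option autoImplicit false

namespace Pool.Agent.Helper21.DSH

open Set Filter Topology MeasureTheory
open scoped ContDiff ENNReal
open Helper62.LH Helper62.DSH

/-- a good point -/
theorem exists_good_point {A : Type*} [MeasurableSpace A] (μ : Measure A) [SFinite μ]
    (F : ℝ × A × A → ℝ≥0∞) (hF : Measurable F) (D : Set A) (hD0 : μ D ≠ 0) (hD1 : μ D ≠ ⊤)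
    (K : ℝ≥0∞) (hint : ∫⁻ x in D, (∫⁻ y in D, (∫⁻ t in Icc (0 : ℝ) 1, F (t, x, y)) ∂μ) ∂μ
      ≤ K * μ D) :
    ∃ x ∈ D, ∫⁻ y in D, (∫⁻ t in Icc (0 : ℝ) 1, F (t, x, y)) ∂μ ≤ K := by
  have h1 : Measurable (fun q : (A × A) × ℝ => F (q.2, q.1.1, q.1.2)) :=
    hF.comp (measurable_snd.prodMk measurable_fst)
  have h2 : Measurable (fun q : A × A => ∫⁻ t in Icc (0 : ℝ) 1, F (t, q.1, q.2)) :=
    h1.lintegral_prod_right'
  have h3 : Measurable (fun x : A => ∫⁻ y in D, (∫⁻ t in Icc (0 : ℝ) 1, F (t, x, y)) ∂μ) :=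
    h2.lintegral_prod_right'
  obtain ⟨x, hxD, hx⟩ := exists_le_setLAverage hD0 hD1 h3.aemeasurable
  refine ⟨x, hxD, hx.trans ?_⟩
  rw [setLAverage_eq]
  exact ENNReal.div_le_of_le_mul hint

theorem cont_q2 {n j : ℕ} (u : E n → Tn n j) (hu : Continuous u) :
    Continuous (fun x => q2 (u x)) := by
  unfold q2 ipt
  refine Continuous.div_const (continuous_finsetSum _ fun I _ => ?_) _
  have h1 : Continuous (fun x => u x I) := (continuous_apply I).comp hu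
  exact h1.mul h1

/-- RKJ. -/
theorem hRkj (hMet : StMet) (hUsc : StUsc) (hSeg : StSeg) (hNrm : TNrm) (hDim : TDim)
    (hDer : TDer) (hPtj : TPtj) : TRkj := by
  intro n j g Γ F G hg hΓ hF hcpl hsec D hD hD0 hD1 hconv Δ hΔ hdiam θ hθ hal
  obtain ⟨-, -, hd0, -, -, -⟩ := hMet n g hg
  obtain ⟨hsm, -, -, -, -, hlin, -, -⟩ := hDer n j g Γ F G hF
  obtain ⟨-, -, -, -, hN5, -, -, -⟩ := hNrm n j
  have hNFc : ∀ i, Continuous (NF F G (θ i)) := by
    intro i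
    have : NF F G (θ i) = fun x => ∑ a, q2 (cv F G (θ i) x a) := rfl
    rw [this]
    exact continuous_finsetSum _ fun a _ => cont_q2 _ ((hsm (θ i) (hθ i)).1 a).continuous
  set h : E n → ℝ := fun y => ∑ i, NF F G (θ i) y with hh
  have hhc : Continuous h := continuous_finsetSum _ fun i _ => hNFc i
  obtain ⟨hmeas, -⟩ := hUsc n g hg hcpl h hhc
  haveI : SFinite (mg g) := by unfold mg; infer_instance
  have hseg : ∫⁻ x in D, (∫⁻ y in D, (∫⁻ t in Icc (0 : ℝ) 1, HS g h t x y) ∂(mg g)) ∂(mg g)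
      ≤ (2 ^ n * ∫⁻ y in D, ENNReal.ofReal (h y) ∂(mg g)) * mg g D := by
    refine (hSeg n g Γ hg hΓ hcpl hsec h hhc D hD hconv).trans (le_of_eq ?_)
    ring
  obtain ⟨x, hxD, hx⟩ := exists_good_point (mg g) (fun q => HS g h q.1 q.2.1 q.2.2) hmeas D
    hD0 hD1 _ hseg
  replace hx : ∫⁻ y in D, (∫⁻ t in Icc (0 : ℝ) 1, HS g h t x y) ∂(mg g)
      ≤ 2 ^ n * ∫⁻ y in D, ENNReal.ofReal (h y) ∂(mg g) := hx
  obtain ⟨c, hc1, hc0⟩ := hDim n j (fun i => θ i x) (fun i => hal i x)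
  refine ⟨c, hc1, ?_⟩
  set ζ : E n → Tn n j := fun y => ∑ i, c i • θ i y with hζ
  have hζs : ContDiff ℝ ∞ ζ := ContDiff.sum fun i _ => (hθ i).const_smul (c i)
  have hζx : ζ x = 0 := hc0
  have hN2 : ∀ y, NF F G ζ y ≤ h y := by
    intro y
    have e1 : NF F G ζ y = ∑ a, q2 (∑ i, c i • cv F G (θ i) y a) := by
      have : NF F G ζ y = ∑ a, q2 (cv F G ζ y a) := rfl
      rw [this]
      refine Finset.sum_congr rfl fun a _ => ?_
      rw [hζ, (hlin _ c θ hθ y).1 a]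
    have e2 : h y = ∑ a, ∑ i, q2 (cv F G (θ i) y a) := by
      have : h y = ∑ i, ∑ a, q2 (cv F G (θ i) y a) := rfl
      rw [this, Finset.sum_comm]
    rw [e1, e2]
    refine Finset.sum_le_sum fun a _ => ?_
    have := hN5 _ c (fun i => cv F G (θ i) y a)
    rw [hc1, one_mul] at this
    exact this
  have hHS : ∀ t y, HS g (NF F G ζ) t x y ≤ HS g h t x y := fun t y =>
    iSup₂_mono fun z _ => ENNReal.ofReal_le_ofReal (hN2 z)
  have hpt : ∀ y ∈ D, ENNReal.ofReal (q2 (ζ y)) ≤ ENNReal.ofReal (Δ ^ 2) *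
      ∫⁻ t in Icc (0 : ℝ) 1, HS g h t x y := by
    intro y hy
    refine (hPtj n j g Γ F G hg hΓ hF hcpl ζ hζs x y hζx).trans ?_
    refine mul_le_mul' (ENNReal.ofReal_le_ofReal ?_) (lintegral_mono fun t => hHS t y)
    exact pow_le_pow_left₀ (hd0 x y) (hdiam x hxD y hy) 2
  calc ∫⁻ y in D, ENNReal.ofReal (q2 (ζ y)) ∂(mg g)
      ≤ ∫⁻ y in D, ENNReal.ofReal (Δ ^ 2) * (∫⁻ t in Icc (0 : ℝ) 1, HS g h t x y) ∂(mg g) :=
        setLIntegral_mono' hD hpt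
    _ = ENNReal.ofReal (Δ ^ 2) * ∫⁻ y in D, (∫⁻ t in Icc (0 : ℝ) 1, HS g h t x y) ∂(mg g) :=
        lintegral_const_mul' _ _ ENNReal.ofReal_ne_top
    _ ≤ ENNReal.ofReal (Δ ^ 2) * (2 ^ n * ∫⁻ y in D, ENNReal.ofReal (h y) ∂(mg g)) :=
        mul_le_mul' le_rfl hx
    _ = ENNReal.ofReal (2 ^ n * Δ ^ 2) * ∫⁻ y in D, ENNReal.ofReal (h y) ∂(mg g) := by
        have h2 : ENNReal.ofReal (2 ^ n) = 2 ^ n := by
          rw [ENNReal.ofReal_pow (by norm_num)]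
          norm_num
        rw [ENNReal.ofReal_mul (by positivity), h2]
        ring

end Pool.Agent.Helper21.DSH
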